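import Pool.Agent.Lib.MP_4fbe7c_an.FC.Iface
import Pool.Agent.Lib.MP_4fbe7c_an.SD.Int

/-!
Module EXS (helper45): from the mean of the logarithm to the supremum.
-/

set_option autoImplicit false

open Set MeasureTheory intervalIntegral

namespace Pool.Agent.Lib.MP_4fbe7c_an.FC.H45

open Pool.Agent.Lib.MP_4fbe7c_an.SD Pool.Agent.Lib.MP_4fbe7c_an.FC

theorem exs : ExSStatement := by
  intro L M c C K T m N d u v w j hctx hpres hT hc hyy hlg
  have hL := hctx.hL
  refine ⟨c / L, Real.exp (C / L + (K + L) / 2), T, by positivity, ?_⟩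
  intro t ht x hx
  have ht0 : 0 < t := lt_of_lt_of_le hT ht
  have hpos : ∀ z ∈ Icc 0 L, 0 < u j t z := hpres t ht0
  have hd : DerivOn L (fun z => Real.log (u j t z)) (fun z => v j t z / u j t z) :=
    fun z hz => (hctx.sol.dx j t ht0 z hz).log (hpos z hz).ne'
  have hcv : ContinuousOn (v j t) (Icc 0 L) := slice (hctx.sol.cv j) ht0
  have hcu : ContinuousOn (u j t) (Icc 0 L) := (hctx.sol.dx j t ht0).continuousOn
  have hcd : ContinuousOn (fun z => v j t z / u j t z) (Icc 0 L) :=
    hcv.div hcu (fun z hz => (hpos z hz).ne')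
  have hcl : ContinuousOn (fun z => Real.log (u j t z)) (Icc 0 L) := hd.continuousOn
  have hpt : ∀ z ∈ Icc 0 L, Real.log (u j t x) - (K + L) / 2 ≤ Real.log (u j t z) := by
    intro z hz
    have h1 := osc_le hL one_pos hd hcd (hyy t ht) hz hx
    have h2 : |x - z| ≤ L := by
      rw [abs_le]; constructor <;> linarith [hx.1, hx.2, hz.1, hz.2]
    have h3 := (abs_le.1 h1).2
    rw [one_mul, div_one] at h3
    linarith
  have hint : IntervalIntegrable (fun z => Real.log (u j t z)) volume 0 L :=
    (hcl.mono (by rw [uIcc_of_le hL.le])).intervalIntegrable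
  have h4 : (∫ _ in (0)..L, (Real.log (u j t x) - (K + L) / 2)) ≤ lg L u j t :=
    integral_mono_on hL.le intervalIntegrable_const hint hpt
  rw [intervalIntegral.integral_const, smul_eq_mul, sub_zero] at h4
  have h5 := hlg t ht
  have h6 : Real.log (u j t x) - (K + L) / 2 ≤ (C - c * t) / L := by
    rw [le_div_iff₀ hL]; linarith
  have h7 : Real.log (u j t x) ≤ (C / L + (K + L) / 2) + -(c / L * t) := by
    have : (C - c * t) / L = C / L - c / L * t := by ring
    linarith
  rw [← Real.exp_add]
  calc u j t x = Real.exp (Real.log (u j t x)) := (Real.exp_log (hpos x hx)).symm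
    _ ≤ _ := Real.exp_le_exp.2 h7

end Pool.Agent.Lib.MP_4fbe7c_an.FC.H45
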